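import Mathlib
import Pool.Agent.J4H9.BF.Stm3

/-!
# The mean over the stabilizer of three elements (project BF)
-/

set_option autoImplicit false

namespace Pool.Agent.J4H54.BF

/-- (AVG) of `Pool.Agent.J4H9.BF.Stm3`: the mean over the pointwise stabilizer `S` of `x 0`, `x 1`,
`x 2`. A term `x k` different from these three is moved to `bar (x k)` by an element of `S`. -/
theorem t_AVG : Pool.Agent.J4H9.BF.S_AVG := by
  intro G X I _ _ _ _ bar β g hbb hne hbs hβ hcard hg hflip w hw n x hx B hB ν h0 h1 h2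
  classical
  have : Fintype X := Fintype.ofFinite X
  let S : Subgroup G :=
    MulAction.stabilizer G (x 0) ⊓ MulAction.stabilizer G (x 1) ⊓ MulAction.stabilizer G (x 2)
  have : Fintype S := Fintype.ofFinite _
  have hmem : ∀ η : G, η ∈ S ↔ (η • x 0 = x 0 ∧ η • x 1 = x 1) ∧ η • x 2 = x 2 := by
    intro η
    simp only [S, Subgroup.mem_inf, MulAction.mem_stabilizer_iff]
  have hzero : ∀ k, x k ≠ x 0 → x k ≠ x 1 → x k ≠ x 2 →
      ∑ η : S, w ((ν * (η : G)) • x k) = 0 := by
    intro k hk0 hk1 hk2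
    obtain ⟨y, hy, hyn⟩ : ∃ y, β y = β (x k) ∧
        y ∉ ({x k, bar (x k), x 0, bar (x 0), x 1, bar (x 1), x 2, bar (x 2)} : Finset X) := by
      by_contra hcon
      push Not at hcon
      have h8 : Nat.card {y // β y = β (x k)} ≤ 8 := by
        rw [Nat.card_eq_fintype_card, Fintype.card_subtype]
        refine le_trans (Finset.card_le_card (fun y hy => hcon y (by simpa using hy))) ?_
        refine (Finset.card_insert_le _ _).trans (Nat.succ_le_succ ?_)
        refine (Finset.card_insert_le _ _).trans (Nat.succ_le_succ ?_)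
        exact Finset.card_le_six
      have := hcard (x k)
      omega
    simp only [Finset.mem_insert, Finset.mem_singleton, not_or] at hyn
    obtain ⟨hy1, hy2, hy3, hy4, hy5, hy6, hy7, hy8⟩ := hyn
    obtain ⟨τ, hτ1, hτ2, hτ3⟩ := hflip (x k) y hy.symm hy1 hy2
    have hfix : ∀ i, x k ≠ x i → y ≠ x i → y ≠ bar (x i) → τ • x i = x i := by
      intro i hki hyi hybi
      refine hτ3 (x i) (fun h => hki h.symm) (hx i k) (fun h => hyi h.symm) (fun h => hybi ?_)
      rw [h, hbb]
    have hτS : τ ∈ S := (hmem τ).2 ⟨⟨hfix 0 hk0 hy3 hy4, hfix 1 hk1 hy5 hy6⟩, hfix 2 hk2 hy7 hy8⟩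
    have e1 : ∑ η : S, w ((ν * (η : G)) • x k) = ∑ η : S, - w ((ν * (η : G)) • x k) := by
      rw [← Equiv.sum_comp (Equiv.mulRight (⟨τ, hτS⟩ : S))]
      refine Finset.sum_congr rfl (fun η _ => ?_)
      rw [Equiv.coe_mulRight, Subgroup.coe_mul, ← mul_assoc, mul_smul (ν * (η : G)) τ (x k)]
      show w ((ν * (η : G)) • τ • x k) = _
      rw [hτ1, ← hbs, hw]
    rw [Finset.sum_neg_distrib] at e1
    linarith
  have hfixed : ∀ k i, (∀ η : S, (η : G) • x i = x i) → x k = x i →
      ∑ η : S, w ((ν * (η : G)) • x k) = (Fintype.card S : ℝ) * w (ν • x i) := by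
    intro k i hi hki
    rw [Finset.sum_congr rfl (fun η _ => by rw [hki, mul_smul, hi η]), Finset.sum_const,
      Finset.card_univ, nsmul_eq_mul]
  have s0 : ∀ η : S, (η : G) • x 0 = x 0 := fun η => ((hmem η).1 η.2).1.1
  have s1 : ∀ η : S, (η : G) • x 1 = x 1 := fun η => ((hmem η).1 η.2).1.2
  have s2 : ∀ η : S, (η : G) • x 2 = x 2 := fun η => ((hmem η).1 η.2).2
  have hc : (0 : ℝ) < Fintype.card S := by exact_mod_cast Fintype.card_pos
  have hnn : ∀ k, 0 ≤ ∑ η : S, w ((ν * (η : G)) • x k) := by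
    intro k
    by_cases a0 : x k = x 0
    · rw [hfixed k 0 s0 a0]; positivity
    by_cases a1 : x k = x 1
    · rw [hfixed k 1 s1 a1]; positivity
    by_cases a2 : x k = x 2
    · rw [hfixed k 2 s2 a2]; positivity
    exact (hzero k a0 a1 a2).ge
  have htot : ∑ k, ∑ η : S, w ((ν * (η : G)) • x k) ≤ (Fintype.card S : ℝ) * B := by
    rw [Finset.sum_comm]
    calc ∑ η : S, ∑ k, w ((ν * (η : G)) • x k) ≤ ∑ η : S, B :=
          Finset.sum_le_sum (fun η _ => hB (ν * (η : G)))
      _ = (Fintype.card S : ℝ) * B := by rw [Finset.sum_const, Finset.card_univ, nsmul_eq_mul]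
  have h3 : ∑ k ∈ ({0, 1, 2} : Finset (Fin (n + 3))), ∑ η : S, w ((ν * (η : G)) • x k) ≤
      ∑ k, ∑ η : S, w ((ν * (η : G)) • x k) :=
    Finset.sum_le_sum_of_subset_of_nonneg (Finset.subset_univ _) (fun k _ _ => hnn k)
  have d01 : (0 : Fin (n + 3)) ≠ 1 := by
    intro h; have := congrArg Fin.val h; simp at this
  have d02 : (0 : Fin (n + 3)) ≠ 2 := by
    intro h
    have h' := congrArg Fin.val h
    have e2 : ((2 : Fin (n + 3)) : ℕ) = 2 :=
      (show ((2 : Fin (n + 3)) : ℕ) = 2 % (n + 3) from rfl).trans (Nat.mod_eq_of_lt (by omega))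
    rw [e2] at h'
    simp at h'
  have d12 : (1 : Fin (n + 3)) ≠ 2 := by
    intro h
    have h' := congrArg Fin.val h
    have e2 : ((2 : Fin (n + 3)) : ℕ) = 2 :=
      (show ((2 : Fin (n + 3)) : ℕ) = 2 % (n + 3) from rfl).trans (Nat.mod_eq_of_lt (by omega))
    rw [e2] at h'
    simp at h'
  rw [Finset.sum_insert (by simp [d01, d02]), Finset.sum_insert (by simp [d12]),
    Finset.sum_singleton, hfixed 0 0 s0 rfl, hfixed 1 1 s1 rfl, hfixed 2 2 s2 rfl] at h3
  have h4 : (Fintype.card S : ℝ) * (w (ν • x 0) + w (ν • x 1) + w (ν • x 2)) ≤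
      (Fintype.card S : ℝ) * B := by linarith
  exact le_of_mul_le_mul_left h4 hc

end Pool.Agent.J4H54.BF
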